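import Pool.Agent.Lib.MP_0becda_co.Cyc.Main

set_option autoImplicit false

namespace Pool.Agent.Results.MP_0becda_co.BigCell

/-- Bailey's conjecture for groups with a subgroup `B` that has a big double coset, an abelian
2-quotient `B / H` compatible with the double cosets, an abelian odd quotient `H / K 0`, and a
doubly transitive chain from `K 0` down to a solvable group of odd order. -/
theorem result :
    ∀ (G : Type) [Group G] [Fintype G] [DecidableEq G] (B H : Subgroup G) (r : ℕ)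
      (K : ℕ → Subgroup G) (w : G) (S : Finset G), H ≤ B →
      (∀ a ∈ B, ∀ b ∈ B, a * b * a⁻¹ * b⁻¹ ∈ H) →
      (∀ b ∈ B, ∃ k : ℕ, b ^ 2 ^ k ∈ H) →
      (∀ d : G, ∀ b ∈ B, ∃ s ∈ B, d⁻¹ * s * d ∈ B ∧ s⁻¹ * b ∈ H) →
      (∀ d : G, ∀ s ∈ H, d⁻¹ * s * d ∈ B → d⁻¹ * s * d ∈ H) →
      (∀ d ∉ B, (¬ ∃ a ∈ B, ∃ b ∈ B, d = a * w * b) →
        (¬ ∃ s ∈ S, ∃ a ∈ B, ∃ b ∈ B, d = a * s * b) → ∃ θ : G → G, (∀ a ∈ B, θ a ∈ B) ∧
        ∀ a ∈ B, ∀ a' ∈ B, ((θ a)⁻¹ * θ a' ∈ H ∨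
          ∃ x ∈ H, ∃ y ∈ H, a'⁻¹ * d * θ a' = x * (a⁻¹ * d * θ a) * y) → a⁻¹ * a' ∈ H) →
      3 * Nat.card G + 8 * (H.relIndex B - 1 + 2 * S.card) * Nat.card B
        < 4 * Nat.card {g : G // ∃ a ∈ B, ∃ b ∈ B, g = a * w * b} →
      K 0 ≤ H → Odd ((K 0).relIndex H) → (∀ a ∈ H, ∀ b ∈ H, a * b * a⁻¹ * b⁻¹ ∈ K 0) →
      ∀ P : Sylow 2 (K 0), (P : Subgroup (K 0)).Normal →
      (∀ i < r, K (i + 1) ≤ K i ∧ (K (i + 1)).relIndex (K i) ≠ 2 ∧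
        ∀ x ∈ K i, x ∉ K (i + 1) → ∀ y ∈ K i, y ∉ K (i + 1) →
          ∃ a ∈ K (i + 1), ∃ b ∈ K (i + 1), y = a * x * b) →
      Odd (Nat.card (K r)) → Group.IsSolvable (K r) →
      ∃ l : List G, l.Nodup ∧ (∀ g : G, g ∈ l) ∧
        ∀ x : G, x ≠ 1 →
          (x * x = 1 → (List.zipWith (fun a b => a⁻¹ * b) l l.tail).count x = 1) ∧
          (x * x ≠ 1 →
            (List.zipWith (fun a b => a⁻¹ * b) l l.tail).count x +
              (List.zipWith (fun a b => a⁻¹ * b) l l.tail).count x⁻¹ = 2) := by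
  intro G _ _ _ B H r K w S h0 h1 h2 h3 h4 h5 h6 k1 k2 k3 P hP hs h7 h8
  exact (Pool.Agent.Lib.MP_0becda_co.Coset.ter_chain r K
    (Pool.Agent.Lib.MP_0becda_co.Coset.ct_odd_comm k1 k2 k3
      (Pool.Agent.Lib.MP_0becda_co.Coset.ct_cyc H B w S h0 h1 h2 h3 h4 h5 h6))
    P hP hs h7 h8).exists_list

end Pool.Agent.Results.MP_0becda_co.BigCell
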