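import Pool.Agent.Lib.MP_0becda_co.Coset.LinMain

set_option autoImplicit false

namespace Pool.Agent.Results.MP_0becda_co.Linear

/-- Bailey's conjecture for the central quotients of the groups between `SL(n, q)` and
`GL(n, q)`, `q ≥ 3`. -/
theorem result :
    ∀ (F : Type) [Field F] [Fintype F], 3 ≤ Fintype.card F →
      ∀ (n : ℕ) (H : Subgroup (Matrix.GeneralLinearGroup (Fin n) F)),
      (∀ A : Matrix.SpecialLinearGroup (Fin n) F, Matrix.SpecialLinearGroup.toGL A ∈ H) →
      ∀ (G : Type) [Group G] [DecidableEq G] (f : H →* G), Function.Surjective f →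
      f.ker ≤ Subgroup.center H →
      (n = 2 → Odd (Nat.card f.ker) ∨ Odd (f.ker.relIndex (Subgroup.center H))) →
      ∃ l : List G, l.Nodup ∧ (∀ g : G, g ∈ l) ∧
        ∀ x : G, x ≠ 1 →
          (x * x = 1 → (List.zipWith (fun a b => a⁻¹ * b) l l.tail).count x = 1) ∧
          (x * x ≠ 1 →
            (List.zipWith (fun a b => a⁻¹ * b) l l.tail).count x +
              (List.zipWith (fun a b => a⁻¹ * b) l l.tail).count x⁻¹ = 2) := by
  intro F _ _ hF n H hH G _ _ f hf hZ hn
  exact (Pool.Agent.Lib.MP_0becda_co.Coset.ter_linear hF H hH f hf hZ hn).exists_list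

end Pool.Agent.Results.MP_0becda_co.Linear
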