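import Pool.Agent.Lib.MP_0becda_co.Coset.SympMain

set_option autoImplicit false

namespace Pool.Agent.Results.MP_0becda_co.Symplectic

open Matrix

/-- Bailey's conjecture for the central quotients of symplectic groups `Sp(2m, q)`, `q ≥ 4`, and
for even `q` of all groups of symplectic similitudes that contain `Sp(2m, q)`. -/
theorem result :
    ∀ (F : Type) [Field F] [Fintype F], 4 ≤ Fintype.card F → ∀ (m : ℕ), 2 ≤ m →
      ∀ (H : Subgroup (Matrix.GeneralLinearGroup (Fin m ⊕ Fin m) F)),
      (∀ A : Matrix.GeneralLinearGroup (Fin m ⊕ Fin m) F,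
        A.val ∈ Matrix.symplecticGroup (Fin m) F → A ∈ H) →
      (∀ A ∈ H, ∃ c : F, (Odd (Fintype.card F) → c = 1) ∧
        A.valᵀ * Matrix.J (Fin m) F * A.val = c • Matrix.J (Fin m) F) →
      ∀ (G : Type) [Group G] [DecidableEq G] (f : H →* G), Function.Surjective f →
      f.ker ≤ Subgroup.center H →
      ∃ l : List G, l.Nodup ∧ (∀ g : G, g ∈ l) ∧
        ∀ x : G, x ≠ 1 →
          (x * x = 1 → (List.zipWith (fun a b => a⁻¹ * b) l l.tail).count x = 1) ∧
          (x * x ≠ 1 →
            (List.zipWith (fun a b => a⁻¹ * b) l l.tail).count x +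
              (List.zipWith (fun a b => a⁻¹ * b) l l.tail).count x⁻¹ = 2) := by
  intro F _ _ hF m hm H h1 h2 G _ _ f hf hZ
  exact (Pool.Agent.Lib.MP_0becda_co.Coset.ter_symplectic hF hm H h1 h2 f hf hZ).exists_list

end Pool.Agent.Results.MP_0becda_co.Symplectic
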