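import Pool.Agent.Lib.MP_0becda_co.Coset.AltMain

set_option autoImplicit false

namespace Pool.Agent.Results.MP_0becda_co.ThreeCycles

/-- Bailey's conjecture for groups that are solvable modulo the three-cycles of an action whose
kernel is solvable of odd order. -/
theorem result :
    ∀ (G : Type) [Group G] [Fintype G] [DecidableEq G] (Ω : Type) [Fintype Ω] [DecidableEq Ω]
      (φ : G →* Equiv.Perm Ω), Group.IsSolvable φ.ker → Odd (Nat.card φ.ker) →
      (∃ k : ℕ, (derivedSeries G k).map φ ≤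
        Subgroup.closure {σ : Equiv.Perm Ω | σ ∈ φ.range ∧ σ.IsThreeCycle}) →
      ¬ ((∀ g : G, g * g = 1) ∧ 4 ≤ Fintype.card G) →
      ∃ l : List G, l.Nodup ∧ (∀ g : G, g ∈ l) ∧
        ∀ x : G, x ≠ 1 →
          (x * x = 1 → (List.zipWith (fun a b => a⁻¹ * b) l l.tail).count x = 1) ∧
          (x * x ≠ 1 →
            (List.zipWith (fun a b => a⁻¹ * b) l l.tail).count x +
              (List.zipWith (fun a b => a⁻¹ * b) l l.tail).count x⁻¹ = 2) := by
  intro G _ _ _ Ω _ _ φ hs ho ⟨k, hk⟩ hne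
  exact (Pool.Agent.Lib.MP_0becda_co.Coset.ter_three_cycles φ ho hk
    (by rwa [Nat.card_eq_fintype_card])).exists_list

end Pool.Agent.Results.MP_0becda_co.ThreeCycles
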